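import Pool.Agent.L7h35.PC5.Stm
import Pool.Agent.R661.HY.Konig

set_option autoImplicit false

/-! Project PX, part BIP. -/

namespace Pool.Agent.L7h29.PC5

open Pool.Agent.L7h35.PC5

theorem s_BIP : S_BIP := by
  classical
  intro n b T hT
  choose s t hst using fun e : T => hT e.1 e.2
  have hclique : ∀ (a : Fin n) (r : T → Fin n), (∀ e : T, r e ∈ e.1.1) →
      Nat.card {e : T // r e = a} ≤ ((L n).induce T).cliqueNum := by
    intro a r hr
    have hQ : ((L n).induce T).IsClique
        ((Finset.univ.filter (fun e : T => r e = a) : Finset T) : Set T) := by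
      intro e he e' he' hne
      have h1 : r e = a := by simpa using he
      have h2 : r e' = a := by simpa using he'
      show (L n).Adj e.1 e'.1
      refine ⟨fun h => hne (Subtype.ext h), ⟨a, ?_⟩⟩
      rw [Finset.mem_inter]
      exact ⟨h1 ▸ hr e, h2 ▸ hr e'⟩
    have h3 := SimpleGraph.IsClique.card_le_cliqueNum (tc := hQ)
    rw [Nat.card_eq_fintype_card, Fintype.card_subtype]
    exact h3
  have hs := fun a => hclique a s (fun e => by
    rw [(hst e).1]; exact Finset.mem_insert_self _ _)
  have ht := fun a => hclique a t (fun e => by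
    rw [(hst e).1]; exact Finset.mem_insert_of_mem (Finset.mem_singleton_self _))
  obtain ⟨c, hc1, hc2⟩ := Pool.Agent.R661.HY.koenig_le s t _ hs ht
  have hcol : ((L n).induce T).Colorable ((L n).induce T).cliqueNum := by
    refine ⟨SimpleGraph.Coloring.mk c ?_⟩
    intro e e' hadj hcc
    have hadj' : (L n).Adj e.1 e'.1 := hadj
    obtain ⟨hne, x, hx⟩ := hadj'
    rw [Finset.mem_inter, (hst e).1, (hst e').1, Finset.mem_insert, Finset.mem_singleton,
      Finset.mem_insert, Finset.mem_singleton] at hx
    rcases hx with ⟨h1 | h1, h2 | h2⟩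
    · exact hne (congrArg Subtype.val (hc1 e e' (h1.symm.trans h2) hcc))
    · have h3 := (hst e).2.1
      rw [← h1, h2, (hst e').2.2] at h3
      exact absurd h3 (by simp)
    · have h3 := (hst e).2.2
      rw [← h1, h2, (hst e').2.1] at h3
      exact absurd h3 (by simp)
    · exact hne (congrArg Subtype.val (hc2 e e' (h1.symm.trans h2) hcc))
  exact le_antisymm hcol.chromaticNumber_le SimpleGraph.cliqueNum_le_chromaticNumber

end Pool.Agent.L7h29.PC5
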